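import Pool.Agent.R498.MT.QGen

set_option autoImplicit false

/-!
# Clusters of almost primes `k ^ 2 + 3 k + 1` in narrow progressions
-/

namespace Pool.Agent.Results.MP_d57abb_nt.Clusters

open Filter

/-- `x ^ 2 + 3 x + 1` has at most three prime factors, counted with multiplicity, all of them at least
`w`. -/
def AlmostPrimeArgument (w : ℝ) (x : ℕ) : Prop :=
  (x ^ 2 + 3 * x + 1).primeFactorsList.length ≤ 3 ∧
    ∀ p : ℕ, p.Prime → p ∣ x ^ 2 + 3 * x + 1 → w ≤ p

/-- **A theorem of Maynard-Tao type for `x ^ 2 + 3 x + 1`.** For every `m` there is `K` such that, for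
every finite set `S` of at least `K` nonnegative integers and every `l`, there is an exponent `B` such
that for all large `N` there are a subset `H` of `S` with `m` elements and an arithmetic progression
`n, n + d, ..., n + (l - 1) d` in `(N, N + N ^ (3 / 4)]` with difference `1 ≤ d ≤ (log N) ^ B` such that
for all its terms `x` and all `h ∈ H` the number `t ^ 2 + 3 t + 1`, `t = x + h`, has at most three prime
factors, all of them at least `N ^ (73 / 400)`. -/
theorem result (m : ℕ) : ∃ K : ℕ, ∀ S : Finset ℕ, K ≤ S.card → ∀ l : ℕ, ∃ B : ℕ,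
    ∀ᶠ N : ℕ in atTop,
    ∃ H ⊆ S, H.card = m ∧ ∃ n d : ℕ, 1 ≤ d ∧ (d : ℝ) ≤ Real.log N ^ B ∧
      ∀ j < l, N < n + j * d ∧ ((n + j * d : ℕ) : ℝ) ≤ N + (N : ℝ) ^ (3 / 4 : ℝ) ∧
        ∀ h ∈ H, AlmostPrimeArgument ((N : ℝ) ^ (73 / 400 : ℝ)) (n + j * d + h) := by
  have hΔ : ¬ IsSquare ((3 : ℤ) ^ 2 - 4 * 1 * 1) := by
    rintro ⟨r, hr⟩
    have h1 : r ≤ 2 := by nlinarith
    have h2 : -2 ≤ r := by nlinarith
    interval_cases r <;> omega
  obtain ⟨K, hK⟩ := Pool.Agent.R498.MT.quad_gen 1 3 1 one_ne_zero hΔ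
    (Pool.Agent.R498.MT.QG 1 3 1) (by
      intro h
      have := congrArg (fun Q : Polynomial ℤ => Q.eval 0) h
      simp only [Pool.Agent.R498.MT.QG_eval, Polynomial.eval_zero] at this
      norm_num at this)
    (fun p hp => ⟨0, by
      rw [Pool.Agent.R498.MT.QG_eval]
      intro h
      norm_num at h
      have h2 : p ∣ 1 := by exact_mod_cast h
      exact hp.one_lt.ne' (Nat.dvd_one.1 h2)⟩)
    (fun p _ n hd => by rw [Pool.Agent.R498.MT.QG_eval]; exact hd) m
  refine ⟨K, fun S hS l => ?_⟩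
  obtain ⟨δ, -, hl⟩ := hK S hS
  obtain ⟨B, hN⟩ := hl (l + 2) (by omega)
  refine ⟨B, ?_⟩
  filter_upwards [hN] with N hN
  obtain ⟨H, hH, hHc, n, d, h1, h2, h3, h4, h5⟩ := hN
  refine ⟨H, hH, hHc, n, d, h3, h4, fun j hj => ⟨by omega, ?_, fun h hh => ?_⟩⟩
  · refine le_trans ?_ h2
    have : n + j * d ≤ n + (l + 2 - 1) * d := by
      have := Nat.mul_le_mul_right d (show j ≤ l + 2 - 1 by omega)
      omega
    exact_mod_cast this
  · obtain ⟨h6, h7, -⟩ := h5 j (by omega) h hh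
    have e1 : 1 * ((n + j * d + h : ℕ) : ℤ) ^ 2 + 3 * ((n + j * d + h : ℕ) : ℤ) + 1 =
        (((n + j * d + h) ^ 2 + 3 * (n + j * d + h) + 1 : ℕ) : ℤ) := by
      push_cast; ring
    rw [e1] at h6 h7
    rw [Int.natAbs_natCast] at h6
    exact ⟨h6, fun p hp hpd => h7 p hp (by exact_mod_cast hpd)⟩

end Pool.Agent.Results.MP_d57abb_nt.Clusters
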